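import Mathlib

namespace Pool.Agent.H.MP_c1c973_an

open Set Filter Topology

abbrev X := ℤ_[3]

def D (n : ℕ) (x : X) (e : ℤ) : Prop := (3 : X) ^ n ∣ x - e

theorem D_iff (n : ℕ) (x : X) : (3 : X) ^ n ∣ x ↔ ‖x‖ ≤ (3 : ℝ) ^ (-n : ℤ) := by
  have := PadicInt.norm_le_pow_iff_mem_span_pow (p := 3) x n
  rw [Ideal.mem_span_singleton] at this
  exact_mod_cast this.symm

theorem D_int {n : ℕ} {a : ℤ} (h : (3 : X) ^ n ∣ (a : X)) : (3 : ℤ) ^ n ∣ a := by
  have := (PadicInt.pow_p_dvd_int_iff (p := 3) n a).1 (by exact_mod_cast h)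
  exact_mod_cast this

theorem D_ex (n : ℕ) (x : X) : ∃ e : ℤ, D n x e ∧ 0 ≤ e ∧ e < 3 ^ n := by
  refine ⟨x.appr n, ?_, by positivity, by exact_mod_cast x.appr_lt n⟩
  have := x.appr_spec n
  rw [Ideal.mem_span_singleton] at this
  simpa [D] using this

noncomputable def rho (n : ℕ) (x : X) : ℝ :=
  ((sInf {m : ℕ | ∃ e : ℤ, e.natAbs = m ∧ D n x e} : ℕ) : ℝ)

theorem rho_le {n : ℕ} {x : X} {e : ℤ} (h : D n x e) : rho n x ≤ |(e : ℝ)| := by
  have : sInf {m : ℕ | ∃ e : ℤ, e.natAbs = m ∧ D n x e} ≤ e.natAbs := Nat.sInf_le ⟨e, rfl, h⟩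
  rw [rho, ← Int.cast_abs, ← Int.natCast_natAbs]
  exact_mod_cast this

theorem rho_spec (n : ℕ) (x : X) :
    ∃ e : ℤ, D n x e ∧ rho n x = |(e : ℝ)| ∧ 2 * |e| + 1 ≤ 3 ^ n := by
  obtain ⟨r, hr, r0, r1⟩ := D_ex n x
  obtain ⟨e, he, hd⟩ := Nat.sInf_mem (s := {m : ℕ | ∃ e : ℤ, e.natAbs = m ∧ D n x e})
    ⟨_, r, rfl, hr⟩
  have e1 : rho n x = |(e : ℝ)| := by
    rw [rho, ← he, ← Int.cast_abs, ← Int.natCast_natAbs]; simp
  refine ⟨e, hd, e1, ?_⟩
  have h1 := rho_le hr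
  have h2 := rho_le (n := n) (x := x) (e := r - 3 ^ n) (by
    unfold D at hr ⊢
    push_cast
    rw [show x - ((r : X) - 3 ^ n) = x - r + 3 ^ n by ring]
    exact dvd_add hr dvd_rfl)
  rw [e1] at h1 h2
  have h3 : |e| ≤ |r| := by exact_mod_cast h1
  have h4 : |e| ≤ |r - 3 ^ n| := by exact_mod_cast h2
  rw [abs_of_nonneg r0] at h3
  rw [abs_of_nonpos (by omega : r - 3 ^ n ≤ 0)] at h4
  have h5 : Odd ((3 : ℤ) ^ n) := Odd.pow (by decide)
  obtain ⟨q, hq⟩ := h5
  omega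

theorem rho_eq {n : ℕ} {x : X} {e : ℤ} (h : D n x e) (h2 : 2 * |e| ≤ 3 ^ n) :
    rho n x = |(e : ℝ)| := by
  obtain ⟨r, hr, r0, r1⟩ := rho_spec n x
  have h3 : (3 : ℤ) ^ n ∣ e - r := D_int (by
    have := dvd_sub hr h
    push_cast
    rwa [show x - r - (x - e) = (e : X) - r by ring] at this)
  have h4 : e - r = 0 := Int.eq_zero_of_abs_lt_dvd h3 (by
    have := abs_sub e r
    have p : (0 : ℤ) < 3 ^ n := by positivity
    omega)
  rw [r0, show r = e by omega]

theorem rho_congr {n : ℕ} {x y : X} (h : (3 : X) ^ n ∣ x - y) : rho n x = rho n y := by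
  have : ∀ e : ℤ, D n x e ↔ D n y e := fun e => by
    unfold D
    rw [show x - e = (x - y) + (y - e) by ring]
    exact dvd_add_right h
  simp only [rho, this]

theorem rho_neg (n : ℕ) (x : X) : rho n (-x) = rho n x := by
  obtain ⟨e, h, e1, e2⟩ := rho_spec n x
  rw [e1, rho_eq (e := -e) _ (by rw [abs_neg]; omega)]
  · simp
  · unfold D at h ⊢
    push_cast
    rw [show -x - -(e : X) = -(x - e) by ring]
    exact dvd_neg.2 h

theorem rho_lip1 (n : ℕ) (x : X) (m : ℤ) : rho n (x + m) ≤ rho n x + |(m : ℝ)| := by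
  obtain ⟨e, h, e1, -⟩ := rho_spec n x
  have := rho_le (n := n) (x := x + m) (e := e + m) (by
    unfold D at h ⊢
    push_cast
    rwa [show x + m - ((e : X) + m) = x - e by ring])
  push_cast at this
  rw [e1]
  exact this.trans (abs_add_le _ _)

theorem rho_lip (n : ℕ) (x : X) (m : ℤ) : |rho n (x + m) - rho n x| ≤ |(m : ℝ)| := by
  have h1 := rho_lip1 n x m
  have h2 := rho_lip1 n (x + m) (-m)
  push_cast at h2
  rw [add_neg_cancel_right, abs_neg] at h2
  rw [abs_le]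
  constructor <;> linarith

theorem rho_cont (n : ℕ) : Continuous (rho n) := by
  refine IsLocallyConstant.continuous ((IsLocallyConstant.iff_eventually_eq _).2 fun x => ?_)
  filter_upwards [Metric.closedBall_mem_nhds x (by positivity : (0 : ℝ) < (3 : ℝ) ^ (-n : ℤ))]
    with y hy
  exact rho_congr ((D_iff _ _).2 (by rwa [Metric.mem_closedBall, dist_eq_norm] at hy))

theorem rho_nn (n : ℕ) (x : X) : 0 ≤ rho n x := Nat.cast_nonneg _

theorem small (δ : ℝ) (hδ : 0 < δ) : ∀ᶠ n : ℕ in atTop, (3 : ℝ) ^ (-n : ℤ) < δ := by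
  have := (tendsto_pow_atTop_nhds_zero_of_lt_one (r := (3 : ℝ)⁻¹) (by norm_num)
    (by norm_num)).eventually (gt_mem_nhds hδ)
  filter_upwards [this] with n hn
  rwa [zpow_neg, zpow_natCast, ← inv_pow]

theorem rho_unb {x : X} (hx : ∀ e : ℤ, x ≠ e) (B : ℝ) : ∀ᶠ n in atTop, B ≤ rho n x := by
  obtain ⟨M, hM⟩ := exists_nat_ge B
  have : ∀ᶠ n in atTop, ∀ e ∈ Finset.Icc (-(M : ℤ)) M, ¬ D n x e := by
    rw [Finset.eventually_all]
    intro e _
    filter_upwards [small _ (norm_pos_iff.2 (sub_ne_zero.2 (hx e)))] with n hn h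
    exact absurd ((D_iff _ _).1 h) (not_le.2 hn)
  filter_upwards [this] with n hn
  obtain ⟨e, h, e1, -⟩ := rho_spec n x
  by_contra hB
  refine hn e (Finset.mem_Icc.2 (abs_le.1 ?_)) h
  have : |(e : ℝ)| ≤ M := by linarith
  exact_mod_cast this

theorem exc : ∃ c : X, 2 * c = 1 := by
  have : IsUnit ((2 : ℕ) : X) := PadicInt.isUnit_iff.2
    (PadicInt.norm_natCast_eq_one_iff.2 (by norm_num))
  obtain ⟨c, hc⟩ := this.exists_right_inv
  exact ⟨c, by exact_mod_cast hc⟩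

noncomputable def c : X := exc.choose

theorem hc : 2 * c = 1 := exc.choose_spec

theorem D_c (n : ℕ) : ∃ κ : ℤ, 3 ^ n = 2 * κ + 1 ∧ D n (-c) κ := by
  obtain ⟨q, hq⟩ : Odd ((3 : ℤ) ^ n) := Odd.pow (by decide)
  refine ⟨q, hq, -c, ?_⟩
  have : (3 : X) ^ n = 2 * q + 1 := by exact_mod_cast hq
  rw [this]
  linear_combination (q : X) * hc

def N (k : ℕ) : ℕ := 4 ^ (k + 1)

noncomputable def g (k : ℕ) : ℝ := 3 ^ N k

theorem g_succ (k : ℕ) : g (k + 1) = g k ^ 4 := by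
  rw [g, g, ← pow_mul, N, N, pow_succ]

theorem g_ge (k : ℕ) : 81 * ((k : ℝ) + 1) ^ 2 ≤ g k := by
  induction k with
  | zero => norm_num [g, N]
  | succ k ih =>
    rw [g_succ]
    push_cast
    have h0 : (0 : ℝ) ≤ k := Nat.cast_nonneg k
    have h1 : 81 ≤ g k := by nlinarith
    have h2 : 4 ≤ g k ^ 3 := by nlinarith [sq_nonneg (g k), mul_le_mul h1 h1 (by norm_num) (by linarith)]
    nlinarith

theorem g_ge' (k : ℕ) : 81 * ((k : ℝ) + 1) ≤ g k := by
  have := g_ge k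
  have h0 : (0 : ℝ) ≤ k := Nat.cast_nonneg k
  nlinarith

theorem g_pos (k : ℕ) : 0 < g k := by unfold g; positivity

theorem N_mono : StrictMono N := fun _ _ h => Nat.pow_lt_pow_right (by norm_num) (by omega)

noncomputable def a (k : ℕ) (s : ℝ) : ℝ := k * min (4 * s / g k) 1 + s / ((k + 1) * g k)

theorem a_mono (k : ℕ) {s t : ℝ} (h : s ≤ t) : a k s ≤ a k t := by
  have := g_pos k
  unfold a
  gcongr

theorem a_zero (k : ℕ) : a k 0 = 0 := by simp [a]

theorem a_big (k : ℕ) {s : ℝ} (h : g k ≤ 4 * s) : a k s = k + s / ((k + 1) * g k) := by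
  rw [a, min_eq_right ((one_le_div (g_pos k)).2 h), mul_one]

theorem a_lip (k : ℕ) (s t : ℝ) : |a k s - a k t| ≤ 5 * (k + 1) / g k * |s - t| := by
  have p := g_pos k
  have h0 : (0 : ℝ) ≤ k := Nat.cast_nonneg k
  have h1 := abs_min_sub_min_le_max (4 * s / g k) 1 (4 * t / g k) 1
  rw [sub_self, abs_zero, max_eq_left (abs_nonneg _), ← sub_div, ← mul_sub, abs_div, abs_mul,
    abs_of_pos p, abs_of_pos (by norm_num : (0 : ℝ) < 4)] at h1
  rw [show a k s - a k t = k * (min (4 * s / g k) 1 - min (4 * t / g k) 1)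
    + (s - t) / ((k + 1) * g k) by unfold a; ring]
  refine (abs_add_le _ _).trans ?_
  rw [abs_mul, abs_of_nonneg h0, abs_div, abs_of_pos (by positivity : 0 < (k + 1) * g k)]
  have h2 : |s - t| / ((k + 1) * g k) ≤ |s - t| / g k :=
    div_le_div_of_nonneg_left (abs_nonneg _) p (by nlinarith)
  have h3 := mul_le_mul_of_nonneg_left h1 h0
  have h4 : 0 ≤ |s - t| / g k := by positivity
  have e1 : 5 * (k + 1) / g k * |s - t| = 5 * (k + 1) * (|s - t| / g k) := by ring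
  have e2 : (k : ℝ) * (4 * |s - t| / g k) = 4 * k * (|s - t| / g k) := by ring
  nlinarith

theorem a_cont (k : ℕ) : Continuous (a k) := by unfold a; fun_prop

noncomputable def f (k : ℕ) (x : X) : ℝ := a k (rho (N (k + 1)) x) - a k (rho (N (k + 1)) (x - c))

noncomputable def L (k : ℕ) : ℝ := 10 * (k + 1) / g k

theorem f_lip (k : ℕ) (x : X) (m : ℤ) : |f k (x + m) - f k x| ≤ L k * |(m : ℝ)| := by
  have p := g_pos k
  have h1 := (a_lip k _ _).trans (mul_le_mul_of_nonneg_left (rho_lip (N (k + 1)) x m)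
    (by positivity))
  have h2 := (a_lip k _ _).trans (mul_le_mul_of_nonneg_left (rho_lip (N (k + 1)) (x - c) m)
    (by positivity))
  rw [show x - c + m = x + m - c by ring] at h2
  have e : L k * |(m : ℝ)| = 5 * (k + 1) / g k * |(m : ℝ)| + 5 * (k + 1) / g k * |(m : ℝ)| := by
    unfold L; ring
  rw [abs_le] at h1 h2 ⊢
  unfold f
  constructor <;> linarith [h1.1, h1.2, h2.1, h2.2]

theorem f_cont (k : ℕ) : Continuous (f k) := by
  have := a_cont k
  have := rho_cont (N (k + 1))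
  unfold f
  fun_prop

theorem f_congr {k : ℕ} {x y : X} (h : (3 : X) ^ N (k + 1) ∣ x - y) : f k x = f k y := by
  unfold f
  rw [rho_congr h, rho_congr (x := x - c) (y := y - c) (by rwa [sub_sub_sub_cancel_right])]

theorem f_sym (k : ℕ) (x : X) : f k (c - x) = -f k x := by
  unfold f
  rw [← rho_neg _ (c - x), ← rho_neg _ (c - x - c), neg_sub, show -(c - x - c) = x by ring]
  ring

theorem f_low (k : ℕ) (x : X) : a k (rho (N (k + 1)) x) ≤ f k x - f k 0 := by
  obtain ⟨κ, h1, h2⟩ := D_c (N (k + 1))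
  have hκ : 0 ≤ κ := by
    have : (0 : ℤ) < 3 ^ N (k + 1) := by positivity
    omega
  have e0 : rho (N (k + 1)) 0 = 0 := by
    rw [rho_eq (e := 0) (by simp [D]) (by simp)]; simp
  have e1 : rho (N (k + 1)) (0 - c) = |(κ : ℝ)| := by
    rw [zero_sub]; exact rho_eq h2 (by rw [abs_of_nonneg hκ]; omega)
  obtain ⟨e, -, e2, e3⟩ := rho_spec (N (k + 1)) (x - c)
  have e4 : |(e : ℝ)| ≤ |(κ : ℝ)| := by
    have : |e| ≤ |κ| := by rw [abs_of_nonneg hκ]; omega
    exact_mod_cast this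
  have := a_mono k e4
  unfold f
  rw [e0, e1, e2, a_zero]
  linarith

theorem a_rho_le (k : ℕ) (x : X) : a k (rho (N (k + 1)) x) ≤ k + g (k + 1) / 81 := by
  obtain ⟨e, -, e2, e3⟩ := rho_spec (N (k + 1)) x
  have h1 : rho (N (k + 1)) x ≤ g (k + 1) := by
    have : |e| ≤ 3 ^ N (k + 1) := by have := abs_nonneg e; omega
    rw [e2, g]; exact_mod_cast this
  have h0 : (0 : ℝ) ≤ k := Nat.cast_nonneg k
  have h2 := g_ge' k
  have h3 : rho (N (k + 1)) x / ((k + 1) * g k) ≤ g (k + 1) / 81 :=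
    div_le_div₀ (g_pos _).le h1 (by norm_num) (by nlinarith)
  have h4 : (k : ℝ) * min (4 * rho (N (k + 1)) x / g k) 1 ≤ k * 1 :=
    mul_le_mul_of_nonneg_left (min_le_right _ _) h0
  unfold a
  linarith

theorem a_nn (k n : ℕ) (x : X) : 0 ≤ a k (rho n x) :=
  (a_zero k).symm.le.trans (a_mono k (rho_nn _ _))

theorem L_half (k : ℕ) : L (k + 1) ≤ L k * (1 / 2) := by
  have p := g_pos k
  have h0 : (0 : ℝ) ≤ k := Nat.cast_nonneg k
  have h1 : 81 ≤ g k := by nlinarith [g_ge' k]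
  have h2 : 4 ≤ g k ^ 3 := by nlinarith [sq_nonneg (g k), mul_le_mul h1 h1 (by norm_num) (by linarith)]
  unfold L
  rw [g_succ, div_mul_eq_mul_div, div_le_div_iff₀ (by positivity) p]
  push_cast
  have : g k * 4 ≤ g k ^ 4 := by nlinarith
  nlinarith

theorem L_geo (k j : ℕ) : L (j + k) ≤ L k * (1 / 2) ^ j := by
  induction j with
  | zero => simp
  | succ j ih =>
    rw [show j + 1 + k = j + k + 1 by ring, pow_succ, ← mul_assoc]
    exact (L_half _).trans (by linarith)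

theorem L_nn (k : ℕ) : 0 ≤ L k := by have := g_pos k; unfold L; positivity

theorem L_sum (k : ℕ) : Summable fun j => L (j + k) :=
  Summable.of_nonneg_of_le (fun _ => L_nn _) (L_geo k) (summable_geometric_two.mul_left _)

theorem L_tsum (k : ℕ) : ∑' j, L (j + k) ≤ 2 * L k := by
  refine ((L_sum k).tsum_le_tsum (L_geo k) (summable_geometric_two.mul_left _)).trans ?_
  rw [tsum_mul_left, tsum_geometric_two, mul_comm]

noncomputable def S (n : ℤ) (x : X) : ℝ := ∑' k, (f k (x + n) - f k x)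

theorem S_sum (n : ℤ) (x : X) : Summable fun k => f k (x + n) - f k x :=
  Summable.of_norm_bounded ((L_sum 0).mul_right |(n : ℝ)|) fun k => f_lip k x n

theorem S_cont (n : ℤ) : Continuous (S n) :=
  continuous_tsum (fun k => by have := f_cont k; fun_prop) ((L_sum 0).mul_right |(n : ℝ)|)
    fun k x => f_lip k x n

theorem S_co (n m : ℤ) (x : X) : S (n + m) x = S n x + S m (x + n) := by
  unfold S
  rw [← (S_sum n x).tsum_add (S_sum m _)]
  refine tsum_congr fun k => ?_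
  push_cast
  rw [add_assoc]
  ring

theorem S_sym (n : ℤ) (x : X) : S n (c - x) = -S (-n) x := by
  unfold S
  rw [← tsum_neg]
  refine tsum_congr fun k => ?_
  rw [show c - x + n = c - (x + (-n : ℤ)) by push_cast; ring, f_sym, f_sym]
  ring

theorem S_split (k : ℕ) (n : ℤ) (x : X) :
    |S n x - ∑ i ∈ Finset.range k, (f i (x + n) - f i x)| ≤ 2 * L k * |(n : ℝ)| := by
  unfold S
  rw [← (S_sum n x).sum_add_tsum_nat_add k, add_sub_cancel_left, ← Real.norm_eq_abs]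
  refine (tsum_of_norm_bounded ((L_sum k).mul_right |(n : ℝ)|).hasSum
    fun i => f_lip _ x n).trans ?_
  rw [tsum_mul_right]
  exact mul_le_mul_of_nonneg_right (L_tsum k) (abs_nonneg _)

end Pool.Agent.H.MP_c1c973_an
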