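import Mathlib
import Pool.Agent.H.MP_c1c973_an.A

namespace Pool.Agent.H.MP_c1c973_an

open Set Filter Topology

def Mid (k : ℕ) (x : X) : Prop :=
  g k ≤ 4 * rho (N (k + 1)) x ∧ 3 * rho (N (k + 1)) x ≤ g (k + 1)

theorem g4 (k : ℕ) : 81 ≤ g k ∧ 81 * g k ≤ g k ^ 2 ∧ 81 * g k ^ 2 ≤ g k ^ 3 ∧
    81 * g k ^ 3 ≤ g (k + 1) := by
  have h0 : (0 : ℝ) ≤ k := Nat.cast_nonneg k
  have h1 : 81 ≤ g k := by nlinarith [g_ge' k]
  have p := g_pos k
  rw [g_succ]
  refine ⟨h1, by nlinarith, by nlinarith [mul_le_mul_of_nonneg_right h1 (pow_pos p 2).le],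
    by nlinarith [mul_le_mul_of_nonneg_right h1 (pow_pos p 3).le]⟩

theorem mid {k : ℕ} {x : X} (h : Mid k x) : ∃ ε : ℤ, ε * ε = 1 ∧ ∃ K : ℝ, ∀ n : ℤ, 0 ≤ n →
    (n : ℝ) ≤ g (k + 1) / 20 → f k (x + (ε * n : ℤ)) = K + 2 * n / ((k + 1) * g k) := by
  obtain ⟨e, hd, e1, -⟩ := rho_spec (N (k + 1)) x
  obtain ⟨κ, h1, h2⟩ := D_c (N (k + 1))
  obtain ⟨m1, m2⟩ := h
  obtain ⟨g1, g2, g3, g4⟩ := g4 k
  have hκ : g (k + 1) = 2 * κ + 1 := by unfold g; exact_mod_cast h1
  have hκ' : (3 : X) ^ N (k + 1) = 2 * κ + 1 := by exact_mod_cast h1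
  rw [e1] at m1 m2
  unfold D at hd h2
  rcases le_total 0 e with he | he
  · have he' : (0 : ℝ) ≤ e := by exact_mod_cast he
    rw [abs_of_nonneg he'] at m1 m2
    refine ⟨1, rfl, (2 * e - κ - 1) / ((k + 1) * g k), fun n n0 n1 => ?_⟩
    have n0' : (0 : ℝ) ≤ n := by exact_mod_cast n0
    have r1 : rho (N (k + 1)) (x + (1 * n : ℤ)) = e + n := by
      rw [rho_eq (e := e + n)]
      · push_cast; exact abs_of_nonneg (by linarith)
      · unfold D; push_cast; convert hd using 1; ring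
      · rw [abs_of_nonneg (by omega), h1]
        have : (2 * (e + n) : ℝ) ≤ 2 * κ + 1 := by linarith
        exact_mod_cast this
    have r2 : rho (N (k + 1)) (x + (1 * n : ℤ) - c) = κ + 1 - e - n := by
      have q : ((e + n - κ - 1 : ℤ) : ℝ) ≤ 0 := by push_cast; linarith
      rw [rho_eq (e := e + n - κ - 1)]
      · rw [abs_of_nonpos q]; push_cast; ring
      · unfold D; push_cast
        convert dvd_add (dvd_add hd h2) dvd_rfl using 1
        rw [hκ']; ring
      · rw [abs_of_nonpos (by exact_mod_cast q), h1]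
        have : (0 : ℝ) < e := by linarith
        have : 0 < e := by exact_mod_cast this
        omega
    rw [f, r1, r2, a_big _ (by linarith), a_big _ (by linarith)]
    ring
  · have he' : (e : ℝ) ≤ 0 := by exact_mod_cast he
    rw [abs_of_nonpos he'] at m1 m2
    refine ⟨-1, rfl, (-2 * e - κ) / ((k + 1) * g k), fun n n0 n1 => ?_⟩
    have n0' : (0 : ℝ) ≤ n := by exact_mod_cast n0
    have r1 : rho (N (k + 1)) (x + (-1 * n : ℤ)) = -e + n := by
      rw [rho_eq (e := e - n)]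
      · push_cast; rw [abs_of_nonpos (by linarith)]; ring
      · unfold D; push_cast; convert hd using 1; ring
      · rw [abs_of_nonpos (by omega), h1]
        have : (2 * (-(e - n)) : ℝ) ≤ 2 * κ + 1 := by linarith
        exact_mod_cast this
    have r2 : rho (N (k + 1)) (x + (-1 * n : ℤ) - c) = κ + e - n := by
      have q : (0 : ℝ) ≤ ((κ + e - n : ℤ) : ℝ) := by push_cast; linarith
      rw [rho_eq (e := κ + e - n)]
      · rw [abs_of_nonneg q]; push_cast; ring
      · unfold D; push_cast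
        convert dvd_add hd h2 using 1
        ring
      · rw [abs_of_nonneg (by exact_mod_cast q), h1]
        omega
    rw [f, r1, r2, a_big _ (by linarith), a_big _ (by linarith)]
    ring

theorem ivt (u : ℕ → ℝ) (M : ℕ) (t η : ℝ) (hη : 0 ≤ η) (h0 : u 0 ≤ t) (hM : t ≤ u M)
    (hs : ∀ s < M, u (s + 1) ≤ u s + η) : ∃ s ≤ M, |u s - t| ≤ η := by
  by_contra h
  push Not at h
  have : ∀ s ≤ M, u s < t - η := by
    intro s
    induction s with
    | zero =>
      intro h1
      have := h 0 h1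
      rw [abs_of_nonpos (by linarith)] at this
      linarith
    | succ s ih =>
      intro h1
      have h2 := ih (by omega)
      have h3 := hs s (by omega)
      have := h _ h1
      rw [abs_of_nonpos (by linarith)] at this
      linarith
  linarith [this M le_rfl]

theorem tail_le (k : ℕ) : 2 * L (k + 1) * g k ≤ 1 / (k + 1) := by
  have p := g_pos k
  have h0 : (0 : ℝ) ≤ k := Nat.cast_nonneg k
  have h1 := g_ge k
  obtain ⟨g1, g2, g3, -⟩ := g4 k
  unfold L
  rw [g_succ, le_div_iff₀ (by positivity)]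
  push_cast
  have : 2 * (10 * ((k : ℝ) + 1 + 1) / g k ^ 4) * g k * (k + 1) = 20 * (k + 2) * (k + 1) / g k ^ 3 := by
    field_simp; ring
  rw [this, div_le_one (by positivity)]
  nlinarith

theorem dense_of {x : X} (hx : ∀ K, ∃ k ≥ K, Mid k x) (t0 : ℝ) :
    Dense (range fun n : ℤ => (x + n, t0 + S n x)) := by
  rw [Metric.dense_iff]
  rintro ⟨y, t⟩ δ hδ
  obtain ⟨m, hm⟩ := (small δ hδ).exists
  obtain ⟨y0, hy, -⟩ := D_ex m y
  obtain ⟨K, hK⟩ := exists_nat_ge (m + 2 * L 0 * |(y0 : ℝ)| + |t - t0| + 3 + 3 / δ)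
  obtain ⟨k0, k0K, m0⟩ := hx K
  obtain ⟨k, kk, mk⟩ := hx (k0 + 1)
  obtain ⟨ε, hε, K', hf⟩ := mid mk
  have hε' : (ε : X) * ε = 1 := by exact_mod_cast hε
  have hεa : |(ε : ℝ)| = 1 := by
    rcases Int.eq_one_or_neg_one_of_mul_eq_one hε with h | h <;> simp [h]
  obtain ⟨n0, hn0, n00, n01⟩ := D_ex (N k) (ε * (y0 - x))
  obtain ⟨g1, g2, g3, g4⟩ := g4 k
  have p := g_pos k
  have hL := mul_nonneg (L_nn 0) (abs_nonneg (y0 : ℝ))
  have hδ3 : 0 < 3 / δ := by positivity
  have hm0 : (0 : ℝ) ≤ m := Nat.cast_nonneg m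
  have hKk : (K : ℝ) ≤ k0 := by exact_mod_cast k0K
  have hkk : (k0 : ℝ) + 1 ≤ k := by exact_mod_cast kk
  have hk0 : (0 : ℝ) ≤ k := Nat.cast_nonneg k
  have hat := abs_nonneg (t - t0)
  let n : ℕ → ℤ := fun s => n0 + s * 3 ^ N k
  have hn : ∀ s, (n s : ℝ) = n0 + s * g k := fun s => by simp [n, g]
  have n0r : (0 : ℝ) ≤ n0 := by exact_mod_cast n00
  have n1r : (n0 : ℝ) ≤ g k := by unfold g; exact_mod_cast n01.le
  have hnn : ∀ s, 0 ≤ n s := fun s => by positivity
  have hD : ∀ s, (3 : X) ^ N k ∣ x + (ε * n s : ℤ) - y0 := by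
    intro s
    have := dvd_add (dvd_mul_of_dvd_right hn0 (-ε)) (dvd_mul_left ((3 : X) ^ N k) (ε * s))
    convert this using 1
    simp only [n]
    push_cast
    linear_combination ((y0 : X) - x) * hε'
  have hlow : ∀ s, ∀ i ∈ Finset.range k, f i (x + (ε * n s : ℤ)) = f i y0 := fun s i hi =>
    f_congr ((pow_dvd_pow _ (N_mono.monotone (Finset.mem_range.1 hi))).trans (hD s))
  obtain ⟨M, hM⟩ : ∃ M : ℕ, (M : ℝ) = g k ^ 2 := ⟨(3 ^ N k) ^ 2, by simp [g]⟩
  have hnb : ∀ s ≤ M, (n s : ℝ) ≤ g (k + 1) / 20 := by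
    intro s hs
    have : (s : ℝ) ≤ g k ^ 2 := by rw [← hM]; exact_mod_cast hs
    rw [hn]
    nlinarith
  have hf0 := hf 0 le_rfl (by have := g_pos (k + 1); simp; positivity)
  simp only [mul_zero, Int.cast_zero, add_zero, zero_div] at hf0
  obtain ⟨A, hA⟩ : ∃ A, A = ∑ i ∈ Finset.range k, (f i y0 - f i x) := ⟨_, rfl⟩
  have hsp : ∀ s ≤ M, |S (ε * n s) x - (A + 2 * n s / ((k + 1) * g k))| ≤ 2 * L (k + 1) * n s := by
    intro s hs
    have := S_split (k + 1) (ε * n s) x
    rw [Finset.sum_range_succ, hf _ (hnn s) (hnb s hs), hf0,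
      Finset.sum_congr rfl fun i hi => by rw [hlow s i hi], ← hA, add_sub_cancel_left] at this
    rwa [Int.cast_mul, abs_mul, hεa, one_mul, abs_of_nonneg (a := (n s : ℝ)) (by exact_mod_cast hnn s)]
      at this
  have hA1 : A ≤ 2 * L 0 * |(y0 : ℝ)| - K := by
    have e : A = ∑ i ∈ Finset.range k, (f i y0 - f i 0) - ∑ i ∈ Finset.range k, (f i x - f i 0) := by
      rw [hA, ← Finset.sum_sub_distrib]
      exact Finset.sum_congr rfl fun i _ => by ring
    have h1 : ∑ i ∈ Finset.range k, (f i y0 - f i 0) ≤ ∑ i ∈ Finset.range k, L i * |(y0 : ℝ)| :=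
      Finset.sum_le_sum fun i _ => by simpa using (le_abs_self _).trans (f_lip i 0 y0)
    rw [← Finset.sum_mul] at h1
    have h2 : ∑ i ∈ Finset.range k, L i ≤ 2 * L 0 :=
      ((L_sum 0).sum_le_tsum (Finset.range k) fun i _ => L_nn _).trans (L_tsum 0)
    have h3 := Finset.single_le_sum (f := fun i => f i x - f i 0) (s := Finset.range k)
      (fun i _ => (a_nn _ _ _).trans (f_low i x)) (Finset.mem_range.2 kk)
    have h4 := f_low k0 x
    rw [a_big _ m0.1] at h4
    have h5 : 0 ≤ rho (N (k0 + 1)) x / ((k0 + 1) * g k0) := by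
      have := rho_nn (N (k0 + 1)) x
      have := g_pos k0
      positivity
    have h6 := mul_le_mul_of_nonneg_right h2 (abs_nonneg (y0 : ℝ))
    linarith
  have hA2 : -(k * g k) ≤ A := by
    have : ∑ i ∈ Finset.range k, -g k ≤ A := by
      rw [hA]
      refine Finset.sum_le_sum fun i hi => ?_
      have hi' := Finset.mem_range.1 hi
      have h1 : g (i + 1) ≤ g k := pow_le_pow_right₀ (by norm_num) (N_mono.monotone hi')
      have h2 : (i : ℝ) ≤ k := by exact_mod_cast hi'.le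
      have := a_rho_le i x
      have := a_rho_le i (y0 - c)
      have := a_nn i (N (i + 1)) y0
      have := a_nn i (N (i + 1)) (x - c)
      have := g_ge' k
      unfold f
      linarith
    simpa using this
  have tl := tail_le k
  have hL1 := L_nn (k + 1)
  have i1 : 1 / ((k : ℝ) + 1) ≤ 1 := by rw [div_le_one (by positivity)]; linarith
  obtain ⟨s, hs, hu⟩ := ivt (fun s => S (ε * n s) x) M (t - t0) (3 / (k + 1)) (by positivity)
    (by
      have h1 := (abs_le.1 (hsp 0 (Nat.zero_le _))).2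
      rw [hn] at h1
      simp only [Nat.cast_zero, zero_mul, add_zero] at h1
      have h2 : 2 * (n0 : ℝ) / ((k + 1) * g k) ≤ 2 := by
        rw [div_le_iff₀ (by positivity)]; nlinarith
      have h3 := mul_le_mul_of_nonneg_left n1r (by positivity : 0 ≤ 2 * L (k + 1))
      have := neg_abs_le (t - t0)
      change S (ε * n 0) x ≤ _
      linarith)
    (by
      have h1 := (abs_le.1 (hsp M le_rfl)).1
      have h2 : 2 * L (k + 1) * n M ≤ 2 * L (k + 1) * (g (k + 1) / 20) :=
        mul_le_mul_of_nonneg_left (hnb M le_rfl) (by positivity)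
      have h3 : 2 * L (k + 1) * (g (k + 1) / 20) = k + 2 := by
        have := g_pos (k + 1)
        unfold L; push_cast; field_simp; ring
      have h4 : 162 * (k + 1) * g k ≤ 2 * (n M : ℝ) / ((k + 1) * g k) := by
        rw [le_div_iff₀ (by positivity), hn, hM]
        have := mul_le_mul_of_nonneg_right (g_ge k) (pow_pos p 2).le
        nlinarith
      have := le_abs_self (t - t0)
      change _ ≤ S (ε * n M) x
      nlinarith)
    (by
      intro s hs
      have e : ε * n (s + 1) = ε * n s + ε * 3 ^ N k := by simp only [n]; push_cast; ring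
      have h1 := S_split (k + 1) (ε * 3 ^ N k) (x + (ε * n s : ℤ))
      rw [add_assoc x, ← Int.cast_add, ← e, Finset.sum_range_succ, hf _ (hnn _) (hnb _ hs),
        hf _ (hnn _) (hnb _ hs.le),
        Finset.sum_eq_zero fun i hi => by rw [hlow _ i hi, hlow _ i hi, sub_self], hn, hn] at h1
      have h2 : |((ε * (3 : ℤ) ^ N k : ℤ) : ℝ)| = g k := by
        rw [Int.cast_mul, abs_mul, hεa]; simp [g]
      have h3 : K' + 2 * (n0 + ((s + 1 : ℕ) : ℝ) * g k) / ((k + 1) * g k)
          - (K' + 2 * (n0 + s * g k) / ((k + 1) * g k)) = 2 * (1 / (k + 1)) := by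
        push_cast; field_simp; ring
      rw [h2, h3] at h1
      have h4 := (abs_le.1 h1).2
      change S (ε * n (s + 1)) x ≤ S (ε * n s) x + _
      rw [e, S_co, show 3 / ((k : ℝ) + 1) = 3 * (1 / (k + 1)) by ring]
      linarith)
  refine ⟨_, ?_, ε * n s, rfl⟩
  rw [Metric.mem_ball, Prod.dist_eq, max_lt_iff, dist_eq_norm, Real.dist_eq]
  constructor
  · refine lt_of_le_of_lt ((D_iff m _).1 ?_) hm
    have hmk : m ≤ N k := by
      have : (m : ℝ) ≤ k := by linarith
      exact (by exact_mod_cast this : m ≤ k).trans N_mono.le_apply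
    convert dvd_sub ((pow_dvd_pow _ hmk).trans (hD s)) hy using 1
    ring
  · rw [show t0 + S (ε * n s) x - t = S (ε * n s) x - (t - t0) by ring]
    refine hu.trans_lt ?_
    rw [div_lt_iff₀ (by positivity), mul_comm, ← div_lt_iff₀ hδ]
    linarith

end Pool.Agent.H.MP_c1c973_an
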